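import Pool.Agent.helper99.IT.Spec

/-!
# Row it:K4R (MP_bf63dc_nt): the removal lemma for a family of edge-disjoint `K_4`'s in a 4-partite relation
-/

set_option autoImplicit false

namespace Pool.Agent.IT

open Finset SzemerediRegularity

open Classical in
/-- the edges which are removed -/
theorem K4R_sub {β : Type} [Fintype β] (G : SimpleGraph β) (P : Finpartition (univ : Finset β)) (ε δ : ℝ) :
    (univ : Finset (β × β)).filter (fun z => G.Adj z.1 z.2 ∧ ¬ (G.regularityReduced P ε δ).Adj z.1 z.2) ⊆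
      ((P.nonUniforms G ε).biUnion (fun z => z.1 ×ˢ z.2) ∪ P.parts.biUnion offDiag) ∪
        (P.sparsePairs G δ).biUnion (fun z => G.interedges z.1 z.2) := by
  rintro ⟨x, y⟩ h
  rw [mem_filter] at h
  obtain ⟨-, h1, h2⟩ := h
  obtain ⟨U, hU, hx⟩ := P.exists_mem (mem_univ x)
  obtain ⟨V, hV, hy⟩ := P.exists_mem (mem_univ y)
  rcases eq_or_ne U V with hUV | hUV
  · subst hUV
    refine mem_union_left _ (mem_union_right _ ?_)
    rw [mem_biUnion]
    exact ⟨U, hU, mem_offDiag.2 ⟨hx, hy, G.ne_of_adj h1⟩⟩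
  by_cases hu : G.IsUniform ε U V
  · refine mem_union_right _ ?_
    rw [mem_biUnion]
    refine ⟨(U, V), ?_, ?_⟩
    · rw [Finpartition.mk_mem_sparsePairs]
      refine ⟨hU, hV, hUV, ?_⟩
      by_contra hd
      exact h2 ⟨h1, U, hU, V, hV, hx, hy, hUV, hu, not_lt.1 hd⟩
    · rw [SimpleGraph.mem_interedges_iff]
      exact ⟨hx, hy, h1⟩
  · refine mem_union_left _ (mem_union_left _ ?_)
    rw [mem_biUnion]
    refine ⟨(U, V), ?_, mem_product.2 ⟨hx, hy⟩⟩
    rw [Finpartition.mk_mem_nonUniforms]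
    exact ⟨hU, hV, hUV, hu⟩

open Classical in
/-- their number -/
theorem K4R_card {β : Type} [Fintype β] [Nonempty β] (G : SimpleGraph β) (P : Finpartition (univ : Finset β)) (η : ℝ) (h0 : 0 < η)
    (h1 : η ≤ 1 / 4) (hP : P.IsEquipartition) (hu : P.IsUniform G (η ^ 2)) (hl : 1 / η ≤ #P.parts) :
    (#((univ : Finset (β × β)).filter (fun z => G.Adj z.1 z.2 ∧ ¬ (G.regularityReduced P (η ^ 2) (4 * η)).Adj z.1 z.2)) : ℝ) <
      19 * η * (Fintype.card β : ℝ) ^ 2 := by
  have e1 : (#((P.nonUniforms G (η ^ 2)).biUnion (fun z => z.1 ×ˢ z.2)) : ℝ) < 4 * η ^ 2 * (Fintype.card β : ℝ) ^ 2 := by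
    have := hP.sum_nonUniforms_lt univ_nonempty (by positivity) hu
    rw [card_univ] at this
    exact this
  have e2 : (#(P.parts.biUnion offDiag) : ℝ) ≤ 4 * η / 2 * (Fintype.card β : ℝ) ^ 2 := by
    have h4 : 4 / (4 * η) ≤ (#P.parts : ℝ) := by
      have h5 : 4 / (4 * η) = 1 / η := by field_simp
      rw [h5]
      exact hl
    have := hP.card_biUnion_offDiag_le (ε := 4 * η) (by positivity) h4
    rw [card_univ] at this
    exact this
  have e3 : (#((P.sparsePairs G (4 * η)).biUnion (fun z => G.interedges z.1 z.2)) : ℝ) ≤ 4 * (4 * η) * (Fintype.card β : ℝ) ^ 2 := by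
    have := hP.card_interedges_sparsePairs_le (G := G) (ε := 4 * η) (by positivity)
    rw [card_univ] at this
    exact this
  have hc : (0 : ℝ) < (Fintype.card β : ℝ) ^ 2 := by
    have : 0 < Fintype.card β := Fintype.card_pos
    positivity
  have e4 : (#((univ : Finset (β × β)).filter (fun z => G.Adj z.1 z.2 ∧ ¬ (G.regularityReduced P (η ^ 2) (4 * η)).Adj z.1 z.2)) : ℝ) ≤
      #((P.nonUniforms G (η ^ 2)).biUnion (fun z => z.1 ×ˢ z.2)) + #(P.parts.biUnion offDiag) +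
        #((P.sparsePairs G (4 * η)).biUnion (fun z => G.interedges z.1 z.2)) := by
    have h5 := card_le_card (K4R_sub G P (η ^ 2) (4 * η))
    have h6 := h5.trans (card_union_le _ _)
    have h7 := h6.trans (Nat.add_le_add_right (card_union_le _ _) _)
    exact_mod_cast h7
  nlinarith

/-- `n < 2 k (n / k)` -/
theorem K4R_aux {n k : ℕ} (hk : 0 < k) (hn : k ≤ n) : n < 2 * k * (n / k) := by
  have h1 : n < k * (n / k + 1) := Nat.lt_mul_div_succ n hk
  have h2 : 1 ≤ n / k := (Nat.one_le_div_iff hk).2 hn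
  nlinarith

open Classical in
theorem K4R_part {β : Type} [Fintype β] [Nonempty β] (P : Finpartition (univ : Finset β)) (hP : P.IsEquipartition) (b : ℕ)
    (hb : #P.parts ≤ b) (s : Finset β) (hs : s ∈ P.parts) : (Fintype.card β : ℝ) / (2 * b) ≤ #s := by
  have hk : 0 < #P.parts := card_pos.2 ⟨s, hs⟩
  have hn : #P.parts ≤ Fintype.card β := by
    have := P.card_parts_le_card
    rwa [card_univ] at this
  have h1 := K4R_aux hk hn
  have h2 := hP.average_le_card_part hs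
  rw [card_univ] at h2
  have hb0 : (0 : ℝ) < b := by
    have : 0 < b := lt_of_lt_of_le hk hb
    exact_mod_cast this
  rw [div_le_iff₀ (by positivity)]
  have h3 : Fintype.card β ≤ 2 * b * #s := by
    calc Fintype.card β ≤ 2 * #P.parts * (Fintype.card β / #P.parts) := h1.le
      _ ≤ 2 * b * #s := by gcongr
  have h4 : (Fintype.card β : ℝ) ≤ 2 * b * #s := by exact_mod_cast h3
  linarith

open Classical in
/-- the core: a family of edge-disjoint `K_4`'s -/
theorem K4R_core (hK4C : K4C_stmt) {β : Type} [Fintype β] [Nonempty β] (G : SimpleGraph β) (η : ℝ) (h0 : 0 < η) (h1 : η ≤ 1 / 8)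
    (l : ℕ) (hl : 1 / η ≤ l) (hc : l ≤ Fintype.card β) (T : Finset (Fin 4 → β)) (hT : ∀ x ∈ T, ∀ i j, i < j → G.Adj (x i) (x j))
    (hd : ∀ x ∈ T, ∀ y ∈ T, ∀ i j i' j', i < j → i' < j' → x i = y i' → x j = y j' → x = y)
    (hbig : 19 * η * (Fintype.card β : ℝ) ^ 2 ≤ #T) :
    η ^ 6 * ((Fintype.card β : ℝ) / (2 * bound (η ^ 2) l)) ^ 4 ≤
      #((univ : Finset (Fin 4 → β)).filter (fun y => ∀ i j, i < j → G.Adj (y i) (y j))) := by
  obtain ⟨P, hP1, hP2, hP3, hP4⟩ := szemeredi_regularity G (ε := η ^ 2) (l := l) (by positivity) hc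
  have hl' : 1 / η ≤ (#P.parts : ℝ) := hl.trans (by exact_mod_cast hP2)
  have hR := K4R_card G P η h0 (by linarith) hP1 hP4 hl'
  -- some `x` in `T` is a `K_4` of the reduced graph
  have hx : ∃ x ∈ T, ∀ i j, i < j → (G.regularityReduced P (η ^ 2) (4 * η)).Adj (x i) (x j) := by
    by_contra hno
    push Not at hno
    choose! f g hfg hn using hno
    have h2 : #T ≤ #((univ : Finset (β × β)).filter (fun z => G.Adj z.1 z.2 ∧ ¬ (G.regularityReduced P (η ^ 2) (4 * η)).Adj z.1 z.2)) := by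
      refine card_le_card_of_injOn (fun x => (x (f x), x (g x))) (fun x hx => ?_) (fun x hx y hy hxy => ?_)
      · rw [mem_coe, mem_filter]
        exact ⟨mem_univ _, hT x hx _ _ (hfg x hx), hn x hx⟩
      · simp only [Prod.mk.injEq] at hxy
        exact hd x hx y hy _ _ _ _ (hfg x hx) (hfg y hy) hxy.1 hxy.2
    have h3 : (#T : ℝ) ≤ #((univ : Finset (β × β)).filter (fun z => G.Adj z.1 z.2 ∧ ¬ (G.regularityReduced P (η ^ 2) (4 * η)).Adj z.1 z.2)) := by
      exact_mod_cast h2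
    linarith
  obtain ⟨x, hxT, hx⟩ := hx
  set U : Fin 4 → Finset β := fun i => P.part (x i) with hU
  have hUp : ∀ i, U i ∈ P.parts := fun i => P.part_mem.2 (mem_univ _)
  have hUx : ∀ i, x i ∈ U i := fun i => P.mem_part (mem_univ _)
  have hpair : ∀ i j : Fin 4, i < j → G.IsUniform (η ^ 2) (U i) (U j) ∧ 4 * η ≤ (G.edgeDensity (U i) (U j) : ℝ) := by
    intro i j hij
    obtain ⟨-, A, hA, B, hB, xA, xB, -, hAB, hde⟩ := hx i j hij
    have h2 : A = U i := P.eq_of_mem_parts hA (hUp i) xA (hUx i)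
    have h3 : B = U j := P.eq_of_mem_parts hB (hUp j) xB (hUx j)
    rw [← h2, ← h3]
    exact ⟨hAB, hde⟩
  have key := hK4C β G η U h0 h1 hpair
  have h4 : ((Fintype.card β : ℝ) / (2 * bound (η ^ 2) l)) ^ 4 ≤ ∏ i, (#(U i) : ℝ) := by
    have h5 : ∀ i, (Fintype.card β : ℝ) / (2 * bound (η ^ 2) l) ≤ #(U i) := fun i =>
      K4R_part P hP1 _ hP3 (U i) (hUp i)
    calc ((Fintype.card β : ℝ) / (2 * bound (η ^ 2) l)) ^ 4
        = ∏ _i : Fin 4, ((Fintype.card β : ℝ) / (2 * bound (η ^ 2) l)) := by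
          rw [prod_const, card_univ, Fintype.card_fin]
      _ ≤ ∏ i, (#(U i) : ℝ) := prod_le_prod (fun i _ => by positivity) fun i _ => h5 i
  refine (mul_le_mul_of_nonneg_left h4 (by positivity)).trans (key.trans ?_)
  have h6 : #{y ∈ Fintype.piFinset U | ∀ i j, i < j → G.Adj (y i) (y j)} ≤
      #((univ : Finset (Fin 4 → β)).filter (fun y => ∀ i j, i < j → G.Adj (y i) (y j))) :=
    card_le_card (filter_subset_filter _ (subset_univ _))
  exact_mod_cast h6

/-- the vertices -/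
def K4R_S (V : Fin 4 → Finset ℤ) : Finset (Fin 4 × ℤ) := univ.biUnion fun i => (V i).image fun x => (i, x)

theorem K4R_mem (V : Fin 4 → Finset ℤ) (p : Fin 4 × ℤ) : p ∈ K4R_S V ↔ p.2 ∈ V p.1 := by
  unfold K4R_S
  rw [mem_biUnion]
  constructor
  · rintro ⟨i, -, h⟩
    obtain ⟨x, hx, rfl⟩ := mem_image.1 h
    exact hx
  · intro h
    exact ⟨p.1, mem_univ _, mem_image.2 ⟨p.2, h, rfl⟩⟩

/-- the graph -/
def K4R_G (V : Fin 4 → Finset ℤ) (E : Fin 4 → Fin 4 → ℤ → ℤ → Prop) : SimpleGraph {p // p ∈ K4R_S V} where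
  Adj p q := (p.1.1 < q.1.1 ∧ E p.1.1 q.1.1 p.1.2 q.1.2) ∨ (q.1.1 < p.1.1 ∧ E q.1.1 p.1.1 q.1.2 p.1.2)
  symm := ⟨fun p q h => h.symm⟩
  loopless := ⟨fun p h => by
    rcases h with h | h
    · exact lt_irrefl _ h.1
    · exact lt_irrefl _ h.1⟩

theorem K4R_lt {V : Fin 4 → Finset ℤ} {E : Fin 4 → Fin 4 → ℤ → ℤ → Prop} {p q : {p // p ∈ K4R_S V}}
    (h : (K4R_G V E).Adj p q) (hpq : p.1.1 < q.1.1) : E p.1.1 q.1.1 p.1.2 q.1.2 := by
  rcases h with h | h
  · exact h.2
  · exact absurd h.1 (not_lt_of_gt hpq)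

theorem K4R_ne {V : Fin 4 → Finset ℤ} {E : Fin 4 → Fin 4 → ℤ → ℤ → Prop} {p q : {p // p ∈ K4R_S V}}
    (h : (K4R_G V E).Adj p q) : p.1.1 ≠ q.1.1 := by
  rcases h with h | h
  · exact h.1.ne
  · exact h.1.ne'

/-- the tuple of integers of a tuple of vertices -/
def K4R_z {V : Fin 4 → Finset ℤ} (y : Fin 4 → {p // p ∈ K4R_S V}) (k : Fin 4) : ℤ :=
  ∑ i, if (y i).1.1 = k then (y i).1.2 else 0

open Classical in
/-- the number of `K_4`'s of the graph -/
theorem K4R_cnt (V : Fin 4 → Finset ℤ) (E : Fin 4 → Fin 4 → ℤ → ℤ → Prop) :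
    #((univ : Finset (Fin 4 → {p // p ∈ K4R_S V})).filter (fun y => ∀ i j, i < j → (K4R_G V E).Adj (y i) (y j))) ≤
      256 * #{x ∈ Fintype.piFinset V | ∀ i j : Fin 4, i < j → E i j (x i) (x j)} := by
  have hinj : ∀ y : Fin 4 → {p // p ∈ K4R_S V}, (∀ i j, i < j → (K4R_G V E).Adj (y i) (y j)) →
      Function.Injective fun i => (y i).1.1 := by
    intro y hy i j hij
    by_contra hne
    rcases lt_or_gt_of_ne hne with h | h
    · exact K4R_ne (hy i j h) hij
    · exact K4R_ne (hy j i h) hij.symm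
  have hz : ∀ y : Fin 4 → {p // p ∈ K4R_S V}, (∀ i j, i < j → (K4R_G V E).Adj (y i) (y j)) → ∀ i, K4R_z y (y i).1.1 = (y i).1.2 := by
    intro y hy i
    unfold K4R_z
    rw [Finset.sum_eq_single i]
    · rw [if_pos rfl]
    · intro j _ hj
      rw [if_neg]
      exact fun h => hj (hinj y hy h)
    · exact fun h => absurd (mem_univ _) h
  have hmap : #((univ : Finset (Fin 4 → {p // p ∈ K4R_S V})).filter (fun y => ∀ i j, i < j → (K4R_G V E).Adj (y i) (y j))) ≤
      #((univ : Finset (Fin 4 → Fin 4)) ×ˢ {x ∈ Fintype.piFinset V | ∀ i j : Fin 4, i < j → E i j (x i) (x j)}) := by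
    refine card_le_card_of_injOn (fun y => (fun i => (y i).1.1, K4R_z y)) (fun y hy => ?_) (fun y hy y' hy' h => ?_)
    · have hy1 := (mem_filter.1 hy).2
      have hadj : ∀ i j, i ≠ j → (K4R_G V E).Adj (y i) (y j) := by
        intro i j hne
        rcases lt_or_gt_of_ne hne with h | h
        · exact hy1 i j h
        · exact (hy1 j i h).symm
      have hsur : Function.Surjective fun i => (y i).1.1 := Finite.injective_iff_surjective.1 (hinj y hy1)
      rw [mem_coe, mem_product, mem_filter, Fintype.mem_piFinset]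
      refine ⟨mem_univ _, fun k => ?_, fun k k' hk => ?_⟩
      · obtain ⟨i, hi⟩ := hsur k
        simp only at hi
        show K4R_z y k ∈ V k
        rw [← hi, hz y hy1 i]
        exact (K4R_mem V _).1 (y i).2
      · obtain ⟨i, hi⟩ := hsur k
        obtain ⟨j, hj⟩ := hsur k'
        simp only at hi hj
        have hij : i ≠ j := by
          rintro rfl
          rw [hi] at hj
          exact hk.ne hj
        have h1 := K4R_lt (hadj i j hij) (by rw [hi, hj]; exact hk)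
        have h2 := hz y hy1 i
        have h3 := hz y hy1 j
        rw [hi] at h1 h2
        rw [hj] at h1 h3
        show E k k' (K4R_z y k) (K4R_z y k')
        rw [h2, h3]
        exact h1
    · have hy1 := (mem_filter.1 hy).2
      have hy2 := (mem_filter.1 hy').2
      simp only [Prod.mk.injEq] at h
      obtain ⟨h1, h2⟩ := h
      funext i
      have h3 : (y i).1.1 = (y' i).1.1 := congrFun h1 i
      have h4 : (y i).1.2 = (y' i).1.2 := by
        rw [← hz y hy1 i, ← hz y' hy2 i, h2, h3]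
      exact Subtype.ext (Prod.ext h3 h4)
  refine hmap.trans (le_of_eq ?_)
  rw [card_product, card_univ, Fintype.card_fun, Fintype.card_fin]
  norm_num

open Classical in
theorem K4R_one (hK4C : K4C_stmt) (δ : ℝ) (h0 : 0 < δ) (h1 : δ ≤ 1) : ∃ δ' : ℝ, 0 < δ' ∧ ∀ (N : ℕ) (V : Fin 4 → Finset ℤ) (E : Fin 4 → Fin 4 → ℤ → ℤ → Prop)
    (T : Finset (Fin 4 → ℤ)), 1 ≤ N → (∀ i, #(V i) ≤ N) → (∀ x ∈ T, (∀ i, x i ∈ V i) ∧ ∀ i j : Fin 4, i < j → E i j (x i) (x j)) →
    (∀ x ∈ T, ∀ y ∈ T, ∀ i j : Fin 4, i < j → x i = y i → x j = y j → x = y) → δ * (N : ℝ) ^ 2 ≤ #T →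
    δ' * (N : ℝ) ^ 4 ≤ #{x ∈ Fintype.piFinset V | ∀ i j : Fin 4, i < j → E i j (x i) (x j)} := by
  set η : ℝ := δ / 400 with hη
  have hη0 : 0 < η := by positivity
  have hη1 : η ≤ 1 / 400 := by
    rw [hη]
    linarith
  set l : ℕ := ⌈1 / η⌉₊ with hl
  have hl1 : 1 / η ≤ (l : ℝ) := Nat.le_ceil _
  have hl0 : (0 : ℝ) < l := lt_of_lt_of_le (by positivity) hl1
  set b : ℕ := bound (η ^ 2) l with hb
  have hb0 : (0 : ℝ) < b := by
    have : 0 < b := bound_pos (η ^ 2) l
    exact_mod_cast this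
  refine ⟨min ((δ / l) ^ 4) (η ^ 6 * (δ / (2 * b)) ^ 4 / 256), by positivity, ?_⟩
  intro N V E T hN hV hT hd hbig
  have hN0 : (0 : ℝ) < N := by exact_mod_cast hN
  have hTpos : 0 < #T := by
    have h2 : (0 : ℝ) < #T := lt_of_lt_of_le (by positivity) hbig
    exact_mod_cast h2
  obtain ⟨x₀, hx₀⟩ := card_pos.1 hTpos
  -- the number of vertices
  set n : ℕ := Fintype.card {p // p ∈ K4R_S V} with hn
  have hnS : n = #(K4R_S V) := Fintype.card_coe _
  have hn1 : n ≤ 4 * N := by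
    rw [hnS]
    unfold K4R_S
    refine card_biUnion_le.trans ?_
    calc ∑ i : Fin 4, #((V i).image fun x => (i, x)) ≤ ∑ _i : Fin 4, N :=
          sum_le_sum fun i _ => card_image_le.trans (hV i)
      _ = 4 * N := by rw [sum_const, card_univ, Fintype.card_fin, smul_eq_mul]
  have hV0 : #(V 0) ≤ n := by
    rw [hnS]
    refine card_le_card_of_injOn (fun x => ((0 : Fin 4), x)) (fun x hx => ?_) (fun x _ y _ h => ?_)
    · exact (K4R_mem V _).2 hx
    · simp only [Prod.mk.injEq, true_and] at h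
      exact h
  have hT2 : #T ≤ #(V 0) * N := by
    have h2 : #T ≤ #(V 0 ×ˢ V 1) := by
      refine card_le_card_of_injOn (fun x => (x 0, x 1)) (fun x hx => ?_) (fun x hx y hy h => ?_)
      · exact mem_product.2 ⟨(hT x hx).1 0, (hT x hx).1 1⟩
      · simp only [Prod.mk.injEq] at h
        exact hd x hx y hy 0 1 (by decide) h.1 h.2
    rw [card_product] at h2
    exact h2.trans (Nat.mul_le_mul_left _ (hV 1))
  have hnN : δ * N ≤ n := by
    have h2 : (#T : ℝ) ≤ #(V 0) * N := by exact_mod_cast hT2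
    have h3 : (#(V 0) : ℝ) ≤ n := by exact_mod_cast hV0
    have h4 : δ * (N : ℝ) * N ≤ n * N := by
      calc δ * (N : ℝ) * N = δ * (N : ℝ) ^ 2 := by ring
        _ ≤ #(V 0) * N := hbig.trans h2
        _ ≤ n * N := mul_le_mul_of_nonneg_right h3 hN0.le
    exact le_of_mul_le_mul_right h4 hN0
  rcases lt_or_ge n l with hnl | hnl
  · -- few vertices
    have h2 : (1 : ℝ) ≤ #{x ∈ Fintype.piFinset V | ∀ i j : Fin 4, i < j → E i j (x i) (x j)} := by
      have h3 : 0 < #{x ∈ Fintype.piFinset V | ∀ i j : Fin 4, i < j → E i j (x i) (x j)} :=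
        card_pos.2 ⟨x₀, mem_filter.2 ⟨Fintype.mem_piFinset.2 (hT x₀ hx₀).1, (hT x₀ hx₀).2⟩⟩
      exact_mod_cast h3
    refine le_trans ?_ h2
    have h4 : δ / l * N ≤ 1 := by
      rw [div_mul_eq_mul_div, div_le_one hl0]
      have h5 : (n : ℝ) ≤ l := by exact_mod_cast hnl.le
      linarith
    calc min ((δ / l) ^ 4) (η ^ 6 * (δ / (2 * b)) ^ 4 / 256) * (N : ℝ) ^ 4
        ≤ (δ / l) ^ 4 * (N : ℝ) ^ 4 := mul_le_mul_of_nonneg_right (min_le_left _ _) (by positivity)
      _ = (δ / l * N) ^ 4 := by ring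
      _ ≤ 1 := pow_le_one₀ (by positivity) h4
  · -- many vertices
    have hne : Nonempty {p // p ∈ K4R_S V} := ⟨⟨(0, x₀ 0), (K4R_mem V _).2 ((hT x₀ hx₀).1 0)⟩⟩
    set emb : (x : Fin 4 → ℤ) → (∀ i, x i ∈ V i) → Fin 4 → {p // p ∈ K4R_S V} := fun x h i => ⟨(i, x i), (K4R_mem V _).2 (h i)⟩ with hemb
    set T' : Finset (Fin 4 → {p // p ∈ K4R_S V}) := T.attach.image (fun x => emb x.1 (hT x.1 x.2).1) with hT'
    have hT'mem : ∀ y ∈ T', ∃ x ∈ T, ∀ i, (y i).1 = (i, x i) := by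
      intro y hy
      obtain ⟨x, -, rfl⟩ := mem_image.1 hy
      exact ⟨x.1, x.2, fun i => rfl⟩
    have hcardT : #T' = #T := by
      rw [hT', card_image_of_injective, card_attach]
      intro x y h
      apply Subtype.ext
      funext i
      have h2 := congrArg (fun f => (f i).1.2) h
      exact h2
    have hadj : ∀ y ∈ T', ∀ i j, i < j → (K4R_G V E).Adj (y i) (y j) := by
      intro y hy i j hij
      obtain ⟨x, hx, hxy⟩ := hT'mem y hy
      refine Or.inl ⟨?_, ?_⟩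
      · rw [hxy i, hxy j]
        exact hij
      · rw [hxy i, hxy j]
        exact (hT x hx).2 i j hij
    have hdis : ∀ y ∈ T', ∀ y' ∈ T', ∀ i j i' j', i < j → i' < j' → y i = y' i' → y j = y' j' → y = y' := by
      intro y hy y' hy' i j i' j' hij hij' h3 h4
      obtain ⟨x, hx, hxy⟩ := hT'mem y hy
      obtain ⟨x', hx', hxy'⟩ := hT'mem y' hy'
      have h5 : (i, x i) = (i', x' i') := by rw [← hxy i, ← hxy' i', h3]
      have h6 : (j, x j) = (j', x' j') := by rw [← hxy j, ← hxy' j', h4]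
      simp only [Prod.mk.injEq] at h5 h6
      obtain ⟨rfl, h5⟩ := h5
      obtain ⟨rfl, h6⟩ := h6
      have h7 := hd x hx x' hx' i j hij h5 h6
      funext k
      apply Subtype.ext
      rw [hxy k, hxy' k, h7]
    have hbig' : 19 * η * (n : ℝ) ^ 2 ≤ #T' := by
      rw [hcardT]
      refine le_trans ?_ hbig
      have h3 : (n : ℝ) ≤ 4 * N := by exact_mod_cast hn1
      have h4 : (n : ℝ) ^ 2 ≤ (4 * N) ^ 2 := pow_le_pow_left₀ (Nat.cast_nonneg _) h3 2
      calc 19 * η * (n : ℝ) ^ 2 ≤ 19 * η * (4 * N) ^ 2 := mul_le_mul_of_nonneg_left h4 (by positivity)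
        _ = (304 / 400) * (δ * (N : ℝ) ^ 2) := by rw [hη]; ring
        _ ≤ 1 * (δ * (N : ℝ) ^ 2) := mul_le_mul_of_nonneg_right (by norm_num) (by positivity)
        _ = δ * (N : ℝ) ^ 2 := one_mul _
    have key := K4R_core hK4C (K4R_G V E) η hη0 (by linarith) l hl1 hnl T' hadj hdis hbig'
    have hcnt := K4R_cnt V E
    have hcnt' : (#((univ : Finset (Fin 4 → {p // p ∈ K4R_S V})).filter (fun y => ∀ i j, i < j → (K4R_G V E).Adj (y i) (y j))) : ℝ) ≤
        256 * #{x ∈ Fintype.piFinset V | ∀ i j : Fin 4, i < j → E i j (x i) (x j)} := by exact_mod_cast hcnt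
    have h5 : (δ * N / (2 * b)) ^ 4 ≤ ((n : ℝ) / (2 * b)) ^ 4 := by
      refine pow_le_pow_left₀ (by positivity) ?_ 4
      exact div_le_div_of_nonneg_right hnN (by positivity)
    have h6 : η ^ 6 * (δ * N / (2 * b)) ^ 4 ≤ 256 * #{x ∈ Fintype.piFinset V | ∀ i j : Fin 4, i < j → E i j (x i) (x j)} :=
      (mul_le_mul_of_nonneg_left h5 (by positivity)).trans (key.trans hcnt')
    calc min ((δ / l) ^ 4) (η ^ 6 * (δ / (2 * b)) ^ 4 / 256) * (N : ℝ) ^ 4
        ≤ η ^ 6 * (δ / (2 * b)) ^ 4 / 256 * (N : ℝ) ^ 4 := mul_le_mul_of_nonneg_right (min_le_right _ _) (by positivity)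
      _ = η ^ 6 * (δ * N / (2 * b)) ^ 4 / 256 := by ring
      _ ≤ #{x ∈ Fintype.piFinset V | ∀ i j : Fin 4, i < j → E i j (x i) (x j)} := by
        rw [div_le_iff₀ (by norm_num)]
        linarith

theorem K4R (hK4C : K4C_stmt) : K4R_stmt := by
  intro δ h0
  obtain ⟨δ', h1, h2⟩ := K4R_one hK4C (min δ 1) (lt_min h0 one_pos) (min_le_right _ _)
  refine ⟨δ', h1, fun N V E T hN hV hT hd hbig => h2 N V E T hN hV hT hd (le_trans ?_ hbig)⟩
  exact mul_le_mul_of_nonneg_right (min_le_left _ _) (by positivity)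

end Pool.Agent.IT
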